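import Pool.Agent.E8helper72.TR.Fin

/-!
# Asymptotic rigidity in Toponogov comparison for Busemann functions

The answer to the question is yes, and only the metric structure of the manifold matters.  Let `X`
be a Hadamard space (complete, geodesic, CAT(0)) of curvature at least `-1` in the sense of
Toponogov comparison with the hyperbolic plane.  A complete connected Riemannian manifold satisfies
these two conditions exactly if it is a Hadamard manifold with `sec ≥ -1` (Cartan-Hadamard theorem
and Toponogov's theorem); its Riemannian angles are the Alexandrov angles used here.  No upper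
bound on the curvature other than `0`, no smoothness and no finite dimension are needed.

Let `γ` be a ray in `X` starting from `x = γ 0`, let `y ≠ x`, and let `γ₁`, `x₁ = γ₁ 0`, `y₁` be
such data in the hyperbolic plane.  If the distances from `x` to `y`, the values of the Busemann
functions at `y` and the angles at `x` agree, then the closed ideal triangle with vertices
`x₁, y₁, γ₁(∞)` (the smallest closed convex set containing `y₁` and the ray `γ₁`) is mapped
isometrically onto a convex (so totally geodesic) subset of `X`, the segment `x₁ y₁` going to the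
segment `x y`, the ray `γ₁` to the ray `γ`, and the ray from `y₁` to `γ₁(∞)` to the ray from `y` to
`γ(∞)`, each parametrised by arc length.

Idea of the proof.  Let `σ` be the segment from `x` to `y`.  The hyperbolic comparison angle at `x`
of the points `σ s`, `γ t` is nonincreasing in `s` and in `t`.  It tends to the angle at `x` for
`s, t → 0`, and for `s = dist x y`, `t → ∞` it tends to the angle determined by the Busemann value
of `y`.  So the hypotheses make it constant, and all the distances between the two sides are the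
hyperbolic ones.  The rigidity of the whole figure is then deduced from the inequality
`sinh |qr| cosh |pm| ≥ sinh |mr| cosh |pq| + sinh |qm| cosh |pr|` for a point `m` between `q` and
`r` (Stewart's theorem in the hyperbolic plane, where it is an equality).
-/

namespace Pool.Agent.Results.MP_a6f1bd_gt.AsymptoticRigidityH72

open Pool.Agent.E8helper72.TR UpperHalfPlane Set

/-- **Asymptotic rigidity.**  `X` is a complete CAT(0) space of curvature at least `-1`. -/
theorem result {X : Type*} [MetricSpace X] (hX : Hadamard X) (hK : CurvGE X)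
    (γ σ : ℝ → X) (y : X) (γ₁ σ₁ : ℝ → ℍ) (y₁ : ℍ)
    (hγ : IsRay γ) (hγ₁ : IsRay γ₁) (hσ : IsSeg σ (γ 0) y) (hσ₁ : IsSeg σ₁ (γ₁ 0) y₁)
    (hne : γ 0 ≠ y)
    (hdist : dist (γ 0) y = dist (γ₁ 0) y₁)
    (hbus : busemann γ y = busemann γ₁ y₁)
    (hangle : angle γ σ = angle γ₁ σ₁) :
    ∃ Φ : ℍ → X,
      (∀ p ∈ idealTriangle γ₁ y₁, ∀ q ∈ idealTriangle γ₁ y₁, dist (Φ p) (Φ q) = dist p q) ∧
      GConvex (Φ '' idealTriangle γ₁ y₁) ∧
      (∀ t : ℝ, 0 ≤ t → γ₁ t ∈ idealTriangle γ₁ y₁ ∧ Φ (γ₁ t) = γ t) ∧
      (∀ s : ℝ, 0 ≤ s → s ≤ dist (γ 0) y →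
        σ₁ s ∈ idealTriangle γ₁ y₁ ∧ Φ (σ₁ s) = σ s) ∧
      (∀ (ρ : ℝ → X) (ρ₁ : ℝ → ℍ), IsRay ρ → IsRay ρ₁ → ρ 0 = y → ρ₁ 0 = y₁ →
        Asymptotic γ ρ → Asymptotic γ₁ ρ₁ →
        ∀ t : ℝ, 0 ≤ t → ρ₁ t ∈ idealTriangle γ₁ y₁ ∧ Φ (ρ₁ t) = ρ t) :=
  main hX hK hγ hγ₁ hσ hσ₁ hne hdist hbus hangle

end Pool.Agent.Results.MP_a6f1bd_gt.AsymptoticRigidityH72
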